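import Pool.Agent.Helper40.BR.Geo
import Pool.Agent.Helper40.BR.Main
import Pool.Agent.Helper40.BR.Psi

/-!
# Immersions of four-manifolds with normal curvature less than `√(5/3)`
-/

open Filter Metric Module Set Function
open scoped Topology ContDiff RealInnerProductSpace Manifold ENNReal

namespace Pool.Agent.Results.MP_f17ed4_gt.SqrtFiveThirds
open Pool.Agent.Helper20.PC Pool.Agent.Helper40.BR

variable {N : ℕ} {X : Type*} [TopologicalSpace X] [ChartedSpace (EE 4) X]
  [IsManifold (𝓡 4) ∞ X] {f : X → EE N}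

lemma bound_of_maxNormalCurvature (hf : ContMDiff (𝓡 4) 𝓘(ℝ, EE N) ∞ f)
    (himm : ∀ p, Injective (dif f p)) {κ : ℝ} (hκ : 0 < κ)
    (h : maxNormalCurvature f < ENNReal.ofReal κ) :
    ∃ c : ℝ, 0 ≤ c ∧ c < κ ∧ ∀ p v, ‖secondFund f p v v‖ ≤ c * ‖dif f p v‖ ^ 2 := by
  have hfin : maxNormalCurvature f ≠ ⊤ := (h.trans ENNReal.ofReal_lt_top).ne
  refine ⟨(maxNormalCurvature f).toReal, ENNReal.toReal_nonneg, ?_, ?_⟩
  · have := (ENNReal.toReal_lt_toReal hfin ENNReal.ofReal_ne_top).2 h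
    rwa [ENNReal.toReal_ofReal hκ.le] at this
  · have hunit : ∀ p u, ‖dif f p u‖ = 1 → ‖secondFund f p u u‖ ≤ (maxNormalCurvature f).toReal := by
      intro p u hu
      have h1 : ‖secondFund f p u u‖ₑ ≤ maxNormalCurvature f := by
        unfold maxNormalCurvature
        exact le_iSup_of_le p (le_iSup_of_le u (le_iSup_of_le hu le_rfl))
      have h2 := ENNReal.toReal_mono hfin h1
      rwa [toReal_enorm] at h2
    intro p v
    by_cases hv : dif f p v = 0
    · have hv0 : v = 0 := himm p (by rw [hv, map_zero])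
      rw [hv0, map_zero, norm_zero]
      simp [secondFund, nform]
    · have hn : 0 < ‖dif f p v‖ := norm_pos_iff.2 hv
      set t := ‖dif f p v‖ with ht
      have h1 : ‖dif f p (t⁻¹ • v)‖ = 1 := by
        rw [map_smul, norm_smul, norm_inv, ← ht, Real.norm_of_nonneg hn.le, inv_mul_cancel₀ hn.ne']
      have h2 := hunit p _ h1
      have h3 : secondFund f p (t⁻¹ • v) (t⁻¹ • v) = (t⁻¹ * t⁻¹) • secondFund f p v v := by
        simp only [secondFund, nform, map_smul, _root_.smul_apply, smul_smul]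
      rw [h3, norm_smul, Real.norm_of_nonneg (by positivity)] at h2
      have h4 := mul_le_mul_of_nonneg_left h2 (show 0 ≤ t ^ 2 by positivity)
      have h5 : t ^ 2 * (t⁻¹ * t⁻¹ * ‖secondFund f p v v‖) = ‖secondFund f p v v‖ := by
        field_simp
      rw [h5] at h4
      linarith

/-- Every immersion `f` of a closed four-manifold in the unit ball of `ℝ^N` with maximal normal
curvature less than `√(5/3)` has no zeros, and the metric `|f|⁻⁵ f^* g` has positive bi-Ricci
curvature. -/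
theorem result (N : ℕ) (X : Type*) [TopologicalSpace X] [CompactSpace X]
    [ChartedSpace (EE 4) X] [IsManifold (𝓡 4) ∞ X] (f : X → EE N)
    (hf : ContMDiff (𝓡 4) 𝓘(ℝ, EE N) ∞ f) (himm : ∀ p, Injective (dif f p))
    (hball : ∀ p, ‖f p‖ ≤ 1) (hcurv : maxNormalCurvature f < ENNReal.ofReal (√(5 / 3))) :
    (∀ p, f p ≠ 0) ∧ ∃ ψ : X → ℝ, ContMDiff (𝓡 4) 𝓘(ℝ, ℝ) ∞ ψ ∧
      (∀ p, Real.exp (2 * ψ p) = (‖f p‖ ^ 5)⁻¹) ∧ PosBiRic f ψ := by
  have hκ0 : 0 < √(5 / 3 : ℝ) := Real.sqrt_pos.2 (by norm_num)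
  have hκ2 : √(5 / 3 : ℝ) ^ 2 = 5 / 3 := Real.sq_sqrt (by norm_num)
  obtain ⟨c, hc0, hc, hA⟩ := bound_of_maxNormalCurvature hf himm hκ0 hcurv
  set κ := √(5 / 3 : ℝ) with hκ
  have hκlt : κ < 2 := by
    apply lt_of_pow_lt_pow_left₀ 2 (by norm_num)
    rw [hκ2]
    norm_num
  have hne : ∀ p, f p ≠ 0 := ne_zero hf himm hball hc0 hc hκlt hA
  refine ⟨hne, fun p => psi f p, ?_, ?_, ?_⟩
  · intro p
    have h1 : ContDiffAt ℝ ∞ (psi (fun x : EE N => x)) (f p) :=
      contDiffAt_psi contDiffAt_id (hne p)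
    exact h1.contMDiffAt.comp p (hf p)
  · intro p
    have hp : 0 < ‖f p‖ := norm_pos_iff.2 (hne p)
    have : 2 * psi f p = -(5 * Real.log ‖f p‖) := by rw [psi]; ring
    rw [this, Real.exp_neg]
    congr 1
    have h2 : 5 * Real.log ‖f p‖ = Real.log (‖f p‖ ^ 5) := by rw [Real.log_pow]; norm_num
    rw [h2, Real.exp_log (by positivity)]
  · intro p u v hu hv huv
    have hps : p ∈ (extChartAt (𝓡 4) p).source := mem_extChartAt_source p
    have hyt : extChartAt (𝓡 4) p p ∈ (extChartAt (𝓡 4) p).target := mem_extChartAt_target p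
    have hF := (contDiffAt_loc hf p hyt).of_le three_le
    have hcm : confMetric f (fun q => psi f q) p = cm (loc f p) (psi (loc f p)) := rfl
    have hpt : pt p = extChartAt (𝓡 4) p p := rfl
    rw [hcm, hpt] at hu hv huv ⊢
    have hFz : loc f p (extChartAt (𝓡 4) p p) = f p := loc_apply p hps
    have hF0 : loc f p (extChartAt (𝓡 4) p p) ≠ 0 := by rw [hFz]; exact hne p
    have hinj := injective_fderiv hf himm p hps
    have hψ : ContDiffAt ℝ 2 (psi (loc f p)) (extChartAt (𝓡 4) p p) :=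
      (contDiffAt_psi hF hF0).of_le (by norm_num)
    have hA' : ∀ v, ‖np (fderiv ℝ (loc f p) (extChartAt (𝓡 4) p p))
        (Sd (loc f p) (extChartAt (𝓡 4) p p) v v)‖
        ≤ c * ‖fderiv ℝ (loc f p) (extChartAt (𝓡 4) p p) v‖ ^ 2 := by
      intro v
      have := hA p v
      rw [← dif_self hf p]
      exact this
    refine biRic_pos hF hψ hinj hF0 (fun w => fderiv_psi (hF.differentiableAt (by norm_num)) hF0 w)
      (fun s t => fderiv2_psi hF hF0 s t) hc0 hA' ?_ u v hu hv huv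
    rw [hFz, ← dif_self hf p]
    have hsplit := norm_sq_split (dif f p) (f p)
    have hρ : ‖f p‖ ^ 2 ≤ 1 := pow_le_one₀ (norm_nonneg _) (hball p)
    have hρ0 : 0 < ‖f p‖ ^ 2 := by
      have : 0 < ‖f p‖ := norm_pos_iff.2 (hne p)
      positivity
    have ht : (3 / 2 : ℝ) ≤ 2 / κ := by
      rw [le_div_iff₀ hκ0]
      have : κ ≤ 4 / 3 := by
        apply le_of_sq_le_sq _ (by norm_num)
        rw [hκ2]
        norm_num
      linarith
    apply numeric (t := 2 / κ) (norm_nonneg _) ((norm_np_le _ _).trans (hball p))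
    · rw [← hsplit]; exact hρ
    · rw [← hsplit]; exact hρ0
    · rw [← hκ2]
      exact pow_lt_pow_left₀ hc hc0 (by norm_num)
    · exact ht
    · by_cases h0 : tp (dif f p) (f p) = 0
      · left
        rw [h0, norm_zero]
      · right
        exact geo hf himm hball hc0 hc hA p h0

end Pool.Agent.Results.MP_f17ed4_gt.SqrtFiveThirds
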